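import Pool.Agent.Helper83.RB.St

set_option autoImplicit false

namespace Pool.Agent.Helper39.RB

open Pool.Agent.Helper83.RB

theorem split_sub {α : Type} (s : List α) : ∀ w : List α, s.Sublist w →
    ∃ (l : List α) (us : List (List α)), w = l ++ us.flatten ∧
      List.Forall₂ (fun a u => ∃ t, u = a :: t) s us := by
  induction s with
  | nil => exact fun w _ => ⟨w, [], by simp, List.Forall₂.nil⟩
  | cons a s ih =>
    intro w hw
    obtain ⟨r1, r2, rfl, ha, hs⟩ := List.cons_sublist_iff.1 hw
    obtain ⟨x, y, rfl⟩ := List.append_of_mem ha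
    obtain ⟨l, us, rfl, hf⟩ := ih r2 hs
    exact ⟨x, (a :: (y ++ l)) :: us, by simp, List.Forall₂.cons ⟨_, rfl⟩ hf⟩

theorem ddiv_of_sub (hLEX : StLEX) {m d : ℕ} {w s : List (Fin m)} (hs : s.Sublist w)
    (hp : s.Pairwise (fun a b => b < a)) (hl : s.length = d) : DDiv d w := by
  obtain ⟨l, us, rfl, hf⟩ := split_sub s w hs
  have hlen := hf.length_eq
  have h1 : ∀ i : Fin d, (i : ℕ) < s.length := fun i => by rw [hl]; exact i.2
  have h2 : ∀ i : Fin d, (i : ℕ) < us.length := fun i => by rw [← hlen]; exact h1 i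
  have h3 : ∀ i : Fin d, us[(i : ℕ)]'(h2 i) = [s[(i : ℕ)]'(h1 i)] ++ (us[(i : ℕ)]'(h2 i)).tail := by
    intro i
    obtain ⟨t, ht⟩ := (List.forall₂_iff_get.1 hf).2 i (h1 i) (h2 i)
    simp only [List.get_eq_getElem] at ht
    rw [ht]
    simp
  have h4 : (List.ofFn fun i : Fin d => us[(i : ℕ)]'(h2 i)) = us := by
    apply List.ext_getElem
    · simp [← hlen, hl]
    · intro n hn1 hn2
      simp
  refine ⟨l, [], fun i => us[(i : ℕ)]'(h2 i), by rw [h4]; simp, ?_⟩
  intro σ hσ
  have h5 := hLEX m d 1 (fun i => [s[(i : ℕ)]'(h1 i)]) (fun i => (us[(i : ℕ)]'(h2 i)).tail)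
    (fun i => rfl) (fun i j hij => ?_) σ hσ
  · simpa only [← h3] using h5
  · have h6 : s[(j : ℕ)]'(h1 j) < s[(i : ℕ)]'(h1 i) :=
      List.pairwise_iff_getElem.1 hp i j (h1 i) (h1 j) hij
    exact List.cons_lt_cons_iff.2 (Or.inl h6)

theorem letters {m d : ℕ} {b : List (Fin m)} (h : d ≤ b.toFinset.card) :
    ∃ c : Fin d → Fin m, (∀ i, c i ∈ b) ∧ ∀ i j, i < j → c j < c i := by
  obtain ⟨T, hT, hc⟩ := Finset.exists_subset_card_eq h
  refine ⟨fun i => T.orderEmbOfFin hc (Fin.rev i), fun i => ?_, fun i j hij => ?_⟩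
  · exact List.mem_toFinset.1 (hT (Finset.orderEmbOfFin_mem _ _ _))
  · exact (T.orderEmbOfFin hc).lt_iff_lt.2 (Fin.rev_lt_rev.2 hij)

/-- a strictly decreasing sublist of length `j + 1` with last letter `≥ r - 1` -/
def Ch {m : ℕ} (w : List (Fin m)) (j r : ℕ) : Prop :=
  ∃ (s : List (Fin m)) (x : Fin m), (s ++ [x]).Sublist w ∧
    (s ++ [x]).Pairwise (fun a b => b < a) ∧ s.length = j ∧ r ≤ (x : ℕ) + 1

theorem Ch.mono {m : ℕ} {w : List (Fin m)} {j r : ℕ} (h : Ch w j r) (b : List (Fin m)) :
    Ch (w ++ b) j r := by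
  obtain ⟨s, x, h1, h2, h3, h4⟩ := h
  exact ⟨s, x, h1.trans (List.sublist_append_left w b), h2, h3, h4⟩

theorem Ch.ext {m : ℕ} {w : List (Fin m)} {j r : ℕ} (h : Ch w j r) {b : List (Fin m)} {c : Fin m}
    (hc : c ∈ b) (hr : (c : ℕ) + 2 ≤ r) : Ch (w ++ b) (j + 1) (c + 1) := by
  obtain ⟨s, x, h1, h2, h3, h4⟩ := h
  refine ⟨s ++ [x], c, h1.append (List.singleton_sublist.2 hc), ?_, by simp [h3], le_rfl⟩
  have hx : c < x := by
    have : (c : ℕ) < x := by omega
    exact this
  rw [List.pairwise_append]
  refine ⟨h2, List.pairwise_singleton _ _, ?_⟩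
  intro a ha b' hb
  rw [List.mem_singleton] at hb
  subst hb
  rw [List.mem_append] at ha
  rcases ha with ha | ha
  · exact lt_trans hx ((List.pairwise_append.1 h2).2.2 a ha x (List.mem_singleton_self x))
  · rw [List.mem_singleton] at ha
    subst ha
    exact hx

theorem claim {m d : ℕ} (hd : 1 ≤ d) (B : List (List (Fin m)))
    (hB : ∀ b ∈ B, d ≤ b.toFinset.card) :
    (∃ s : List (Fin m), s.Sublist B.flatten ∧ s.Pairwise (fun a b => b < a) ∧ s.length = d) ∨
    ∃ R : ℕ → ℕ, (∀ j, R j ≤ m) ∧ B.length ≤ ∑ j ∈ Finset.range (d - 1), R j ∧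
      ∀ j, j < d - 1 → 1 ≤ R j → Ch B.flatten j (R j) := by
  induction B using List.reverseRecOn with
  | nil => exact Or.inr ⟨fun _ => 0, fun _ => Nat.zero_le _, by simp, fun j _ h => by simp at h⟩
  | append_singleton B b ih =>
    have hfl : (B ++ [b]).flatten = B.flatten ++ b := by simp
    rw [hfl]
    rcases ih (fun b' hb' => hB b' (List.mem_append_left _ hb')) with h | h
    · obtain ⟨s, h1, h2, h3⟩ := h
      exact Or.inl ⟨s, h1.trans (List.sublist_append_left _ _), h2, h3⟩
    · obtain ⟨R, hRm, hRs, hRc⟩ := h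
      obtain ⟨c, hcb, hcd⟩ := letters (hB b (List.mem_append_right _ (List.mem_singleton_self b)))
      by_cases hall : ∀ j (hj : j < d - 1), ((c ⟨j, by omega⟩ : Fin m) : ℕ) + 1 ≤ R j
      · left
        by_cases hd1 : d = 1
        · subst hd1
          exact ⟨[c ⟨0, by omega⟩],
            (List.singleton_sublist.2 (hcb _)).trans (List.sublist_append_right _ _),
            List.pairwise_singleton _ _, rfl⟩
        · have h1 := hall (d - 2) (by omega)
          have h2 : (c ⟨d - 1, by omega⟩ : ℕ) < (c ⟨d - 2, by omega⟩ : ℕ) :=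
            hcd ⟨d - 2, by omega⟩ ⟨d - 1, by omega⟩ (by
              rw [Fin.lt_def]
              change d - 2 < d - 1
              omega)
          have h3 := (hRc (d - 2) (by omega) (by omega)).ext (hcb ⟨d - 1, by omega⟩) (by omega)
          obtain ⟨s, x, e1, e2, e3, -⟩ := h3
          refine ⟨s ++ [x], e1, e2, ?_⟩
          rw [List.length_append, e3]
          simp
          omega
      · right
        push_neg at hall
        have hex : ∃ j, ∃ hj : j < d - 1, R j < ((c ⟨j, by omega⟩ : Fin m) : ℕ) + 1 := hall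
        classical
        obtain ⟨hj, hjR⟩ := Nat.find_spec hex
        set j := Nat.find hex with hjdef
        have hmin : ∀ i, (hi : i < j) → ((c ⟨i, by omega⟩ : Fin m) : ℕ) + 1 ≤ R i := by
          intro i hi
          have h1 := Nat.find_min hex hi
          push_neg at h1
          exact h1 (by omega)
        have hch : Ch (B.flatten ++ b) j ((c ⟨j, by omega⟩ : ℕ) + 1) := by
          by_cases hj0 : j = 0
          · refine ⟨[], c ⟨j, by omega⟩, ?_, List.pairwise_singleton _ _, by simp [hj0], le_rfl⟩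
            exact (List.singleton_sublist.2 (hcb _)).trans (List.sublist_append_right _ _)
          · have h1 := hmin (j - 1) (by omega)
            have h2 : (c ⟨j, by omega⟩ : ℕ) < (c ⟨j - 1, by omega⟩ : ℕ) :=
              hcd ⟨j - 1, by omega⟩ ⟨j, by omega⟩ (by
                rw [Fin.lt_def]
                change j - 1 < j
                omega)
            have h3 := (hRc (j - 1) (by omega) (by omega)).ext (hcb ⟨j, by omega⟩) (by omega)
            rwa [Nat.sub_add_cancel (by omega)] at h3
        refine ⟨Function.update R j ((c ⟨j, by omega⟩ : ℕ) + 1), ?_, ?_, ?_⟩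
        · intro i
          rw [Function.update_apply]
          split_ifs
          · exact (c ⟨j, by omega⟩).2
          · exact hRm i
        · rw [List.length_append, List.length_singleton]
          have h1 : ∑ i ∈ Finset.range (d - 1), R i <
              ∑ i ∈ Finset.range (d - 1), Function.update R j ((c ⟨j, by omega⟩ : ℕ) + 1) i := by
            refine Finset.sum_lt_sum (fun i _ => ?_) ⟨j, Finset.mem_range.2 hj, ?_⟩
            · rw [Function.update_apply]
              split_ifs with hij
              · rw [hij]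
                exact hjR.le
              · exact le_rfl
            · rw [Function.update_self]
              exact hjR
          omega
        · intro i hi hRi
          rw [Function.update_apply] at hRi ⊢
          split_ifs with hij
          · rw [hij]
            exact hch
          · rw [if_neg hij] at hRi
            exact (hRc i hi hRi).mono b

theorem blocks {α : Type} (K : ℕ) : ∀ (M : ℕ) (w : List α), M * K ≤ w.length →
    ∃ B : List (List α), B.length = M ∧ (∀ b ∈ B, b.length = K ∧ ∃ l t, w = l ++ b ++ t) ∧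
      ∃ t, w = B.flatten ++ t := by
  intro M
  induction M with
  | zero => exact fun w _ => ⟨[], rfl, by simp, w, by simp⟩
  | succ M ih =>
    intro w hw
    have h1 : K ≤ w.length := by nlinarith
    obtain ⟨B, hB1, hB2, t, ht⟩ := ih (w.drop K) (by
      rw [List.length_drop]
      have : (M + 1) * K = M * K + K := by ring
      omega)
    refine ⟨w.take K :: B, by simp [hB1], ?_, t, ?_⟩
    · intro b hb
      rcases List.mem_cons.1 hb with rfl | hb
      · exact ⟨by simp [h1], [], w.drop K, by simp⟩
      · obtain ⟨e1, l, t', e2⟩ := hB2 b hb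
        refine ⟨e1, w.take K ++ l, t', ?_⟩
        conv_lhs => rw [← List.take_append_drop K w, e2]
        simp
    · conv_lhs => rw [← List.take_append_drop K w, ht]
      simp

theorem hDEC (hLEX : StLEX) : StDEC := by
  intro m d K hd w hw
  obtain ⟨B, hB1, hB2, t, ht⟩ := blocks K ((d - 1) * m + 1) w hw
  by_cases h : ∃ b ∈ B, b.toFinset.card < d
  · right
    obtain ⟨b, hb, hc⟩ := h
    obtain ⟨e1, l, t', e2⟩ := hB2 b hb
    exact ⟨l, b, t', e2, e1, hc⟩
  · left
    push_neg at h
    rcases claim hd B h with ⟨s, h1, h2, h3⟩ | ⟨R, h1, h2, -⟩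
    · refine ddiv_of_sub hLEX (h1.trans ?_) h2 h3
      rw [ht]
      exact List.sublist_append_left _ _
    · exfalso
      have h4 : ∑ j ∈ Finset.range (d - 1), R j ≤ (d - 1) * m := by
        have := Finset.sum_le_card_nsmul (Finset.range (d - 1)) R m (fun j _ => h1 j)
        simpa using this
      omega

end Pool.Agent.Helper39.RB

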